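import Mathlib

set_option autoImplicit false

namespace Pool.Agent.H.MP_1aba1b_co

open Finset
open scoped Classical

section
variable {A : Type} [AddCommGroup A] [Fintype A]

noncomputable def cnt (U : AddSubgroup A) (col : A → ℕ) (j : ℕ) : ℕ :=
  ∑ x, if x ∈ U ∧ col x = j then 1 else 0

noncomputable def nb (U : AddSubgroup A) (col : A → ℕ) : ℕ :=
  ∑ x, if x ∈ U ∧ (x = 0 ∨ col x ≠ 0) then 1 else 0

noncomputable def sz (U : AddSubgroup A) : ℕ := ∑ x, if x ∈ U then 1 else 0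

noncomputable def ee (col : A → ℕ) (j : ℕ) : ℕ :=
  ∑ x, ∑ y, if (x = 0 ∨ col x ≠ 0) ∧ (y = 0 ∨ col y ≠ 0) ∧ col (x - y) = j then 1 else 0

noncomputable def ext (V : AddSubgroup A) (col : A → ℕ) (s : ℕ) (p : A × ZMod 2) : ℕ :=
  if p.2 = 0 then col p.1 else if p.1 ∈ V then s else 0

lemma sum2 (f : A × ZMod 2 → ℕ) : ∑ p, f p = ∑ x, f (x, 0) + ∑ x, f (x, 1) := by
  rw [Fintype.sum_prod_type_right]
  exact Fin.sum_univ_two fun i => ∑ x, f (x, i)

lemma cnt_top (V : AddSubgroup A) (col : A → ℕ) (s j : ℕ) (hj : j ≠ 0) :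
    cnt ⊤ (ext V col s) j = cnt ⊤ col j + if j = s then sz V else 0 := by
  simp only [cnt, sum2, ext, AddSubgroup.mem_top, true_and, if_true, one_ne_zero, if_false, sz]
  congr 1
  split_ifs with h
  · exact sum_congr rfl fun x _ => by by_cases hx : x ∈ V <;> simp [hx, h, h ▸ hj.symm]
  · exact sum_eq_zero fun x _ => by by_cases hx : x ∈ V <;> simp [hx, Ne.symm h, hj.symm]

lemma nb_top (V : AddSubgroup A) (col : A → ℕ) (s : ℕ) (hs : s ≠ 0) :
    nb ⊤ (ext V col s) = nb ⊤ col + sz V := by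
  simp only [nb, sum2, ext, AddSubgroup.mem_top, true_and, if_true, one_ne_zero, if_false, sz,
    Prod.mk_eq_zero, and_true, and_false, false_or]
  congr 1
  exact sum_congr rfl fun x _ => by by_cases hx : x ∈ V <;> simp [hx, hs]

lemma cnt_emb (U V : AddSubgroup A) (col : A → ℕ) (s j : ℕ) :
    cnt (U.prod ⊥) (ext V col s) j = cnt U col j := by
  rw [cnt, sum2, cnt]; simp [ext, AddSubgroup.mem_prod]

lemma nb_emb (U V : AddSubgroup A) (col : A → ℕ) (s : ℕ) :
    nb (U.prod ⊥) (ext V col s) = nb U col := by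
  rw [nb, sum2, nb]; simp [ext, AddSubgroup.mem_prod]

lemma sz_emb (U : AddSubgroup A) : sz (U.prod (⊥ : AddSubgroup (ZMod 2))) = sz U := by
  rw [sz, sum2, sz]; simp [AddSubgroup.mem_prod]

lemma ee_ext (V : AddSubgroup A) (col : A → ℕ) (s j : ℕ) (hs : s ≠ 0) (hj : j ≠ 0) :
    ee (ext V col s) j = ee col j + sz V * cnt V col j +
      if j = s then 2 * (nb V col * sz V) else 0 := by
  have m01 : (0 : ZMod 2) - 1 ≠ 0 := by decide
  have cross : ∑ x, ∑ y, (if (x = 0 ∨ col x ≠ 0) ∧ (if y ∈ V then s else 0) ≠ 0 ∧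
      (if x - y ∈ V then s else 0) = j then 1 else 0) = if j = s then nb V col * sz V else 0 := by
    split_ifs with h
    · rw [nb, sz, sum_mul_sum]
      refine sum_congr rfl fun x _ => sum_congr rfl fun y _ => ?_
      by_cases hy : y ∈ V
      · by_cases hx : x ∈ V
        · simp [hx, hy, hs, h, V.sub_mem hx hy]
        · have : x - y ∉ V := fun h => hx (by simpa using V.add_mem h hy)
          simp [hx, hy, this, hj.symm]
      · simp [hy]
    · refine sum_eq_zero fun x _ => sum_eq_zero fun y _ => ?_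
      by_cases hx : x - y ∈ V <;> simp [hx, Ne.symm h, hj.symm]
  have cross' : ∑ x, ∑ y, (if (if x ∈ V then s else 0) ≠ 0 ∧ (y = 0 ∨ col y ≠ 0) ∧
      (if x - y ∈ V then s else 0) = j then 1 else 0) = if j = s then nb V col * sz V else 0 := by
    rw [← cross, sum_comm]
    refine sum_congr rfl fun x _ => sum_congr rfl fun y _ => ?_
    have : y - x ∈ V ↔ x - y ∈ V := by rw [← neg_mem_iff, neg_sub]
    simp only [this]
    exact if_congr (by tauto) rfl rfl
  have inn : ∑ x, ∑ y, (if (if x ∈ V then s else 0) ≠ 0 ∧ (if y ∈ V then s else 0) ≠ 0 ∧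
      col (x - y) = j then 1 else 0) = sz V * cnt V col j := by
    rw [sz, sum_mul]
    refine sum_congr rfl fun x _ => ?_
    by_cases hx : x ∈ V
    · rw [if_pos hx, if_pos hx, one_mul, cnt, ← (Equiv.subLeft x).sum_comp]
      refine sum_congr rfl fun y _ => ?_
      by_cases hy : y ∈ V
      · simp [hy, hs, V.sub_mem hx hy]
      · have : x - y ∉ V := fun h => hy (by simpa using V.sub_mem hx h)
        simp [hy, this]
    · simp [hx]
  simp only [ee, sum2, ext, Prod.mk_eq_zero, Prod.mk_sub_mk, sub_zero, sub_self, if_true,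
    one_ne_zero, if_false, and_true, and_false, false_or, m01, sum_add_distrib]
  rw [cross, cross', inn]
  split_ifs <;> ring

end

def Real (k : ℕ) (d E : ℕ → ℕ) (t m p : ℕ) (b : ℕ → ℕ) : Prop :=
  ∃ (A : Type) (_ : AddCommGroup A) (_ : Fintype A) (col : A → ℕ) (U : AddSubgroup A),
    col 0 = 0 ∧ (∀ x, col (-x) = col x) ∧ (∀ x, col x ≤ k) ∧
    (∀ j, j ≠ 0 → cnt ⊤ col j = d j ∧ ee col j = E j ∧ cnt U col j = b j) ∧
    nb ⊤ col = t ∧ sz U = m ∧ nb U col = p

lemma ext_ok {A : Type} [AddCommGroup A] (V : AddSubgroup A) (col : A → ℕ) (k s : ℕ)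
    (h0 : col 0 = 0) (hn : ∀ x, col (-x) = col x) (hk : ∀ x, col x ≤ k) (hs : s ≤ k) :
    ext V col s 0 = 0 ∧ (∀ x, ext V col s (-x) = ext V col s x) ∧ ∀ x, ext V col s x ≤ k := by
  refine ⟨by simp [ext, h0], fun x => by simp [ext, hn], fun x => ?_⟩
  unfold ext
  split_ifs
  exacts [hk _, hs, Nat.zero_le _]

lemma Real.congr {k t m p t' : ℕ} {d E b d' E' : ℕ → ℕ} (h : Real k d E t m p b)
    (hd : ∀ j, d j = d' j) (hE : ∀ j, E j = E' j) (ht : t = t') : Real k d' E' t' m p b := by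
  rwa [← funext hd, ← funext hE, ← ht]

lemma Real.k2 {k t m p : ℕ} {d E b : ℕ → ℕ} (h : Real k d E t m p b) (s : ℕ) (hs : s ∈ Icc 1 k) :
    Real k (fun j => d j + if j = s then 1 else 0) (fun j => E j + if j = s then 2 else 0)
      (t + 1) m p b := by
  obtain ⟨A, i1, i2, col, U, h0, hn, hk, h1, h2, h3, h4⟩ := h
  rw [mem_Icc] at hs
  obtain ⟨a1, a2, a3⟩ := ext_ok ⊥ col k s h0 hn hk hs.2
  have z : sz (⊥ : AddSubgroup A) = 1 := by simp [sz]
  have z2 : nb (⊥ : AddSubgroup A) col = 1 := by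
    rw [← z, nb, sz]
    exact sum_congr rfl fun x _ => if_congr (by simp +contextual) rfl rfl
  refine ⟨A × ZMod 2, inferInstance, inferInstance, ext ⊥ col s, U.prod ⊥, a1, a2, a3,
    fun j hj => ⟨?_, ?_, ?_⟩, ?_, ?_, ?_⟩
  · rw [cnt_top _ _ _ _ hj, (h1 j hj).1, z]
  · have z3 : cnt (⊥ : AddSubgroup A) col j = 0 :=
      sum_eq_zero fun x _ => if_neg fun h => hj (by rw [← h.2, AddSubgroup.mem_bot.1 h.1, h0])
    rw [ee_ext _ _ _ _ (by omega) hj, (h1 j hj).2.1, z, z2, z3]; simp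
  · rw [cnt_emb, (h1 j hj).2.2]
  · rw [nb_top _ _ _ (by omega), h2, z]
  · rw [sz_emb, h3]
  · rw [nb_emb, h4]

lemma Real.blob {k t m p : ℕ} {d E b : ℕ → ℕ} (h : Real k d E t m p b) (s : ℕ)
    (hs : s ∈ Icc 1 k) :
    Real k (fun j => d j + if j = s then m else 0)
      (fun j => E j + m * b j + if j = s then 2 * (p * m) else 0) (t + m) m p b := by
  obtain ⟨A, i1, i2, col, U, h0, hn, hk, h1, h2, h3, h4⟩ := h
  rw [mem_Icc] at hs
  obtain ⟨a1, a2, a3⟩ := ext_ok U col k s h0 hn hk hs.2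
  refine ⟨A × ZMod 2, inferInstance, inferInstance, ext U col s, U.prod ⊥, a1, a2, a3,
    fun j hj => ⟨?_, ?_, ?_⟩, ?_, ?_, ?_⟩
  · rw [cnt_top _ _ _ _ hj, (h1 j hj).1, h3]
  · rw [ee_ext _ _ _ _ (by omega) hj, (h1 j hj).2.1, h3, h4, (h1 j hj).2.2]
  · rw [cnt_emb, (h1 j hj).2.2]
  · rw [nb_top _ _ _ (by omega), h2, h3]
  · rw [sz_emb, h3]
  · rw [nb_emb, h4]

lemma Real.reset {k t m p : ℕ} {d E b : ℕ → ℕ} (h : Real k d E t m p b) :
    ∃ m', 1 ≤ m' ∧ Real k d E t m' t d := by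
  obtain ⟨A, i1, i2, col, U, h0, hn, hk, h1, h2, h3, h4⟩ := h
  refine ⟨sz (⊤ : AddSubgroup A), ?_, A, i1, i2, col, ⊤, h0, hn, hk,
    fun j hj => ⟨(h1 j hj).1, (h1 j hj).2.1, (h1 j hj).1⟩, h2, rfl, h2⟩
  simpa [sz, Nat.one_le_iff_ne_zero] using Fintype.card_ne_zero (α := A)

lemma real0 (k : ℕ) : Real k (fun _ => 0) (fun _ => 0) 1 1 1 (fun _ => 0) :=
  ⟨PUnit, inferInstance, inferInstance, fun _ => 0, ⊤, rfl, fun _ => rfl, fun _ => Nat.zero_le _,
    fun j hj => by simp [cnt, ee, hj.symm], by simp [nb], by simp [sz], by simp [nb]⟩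

lemma iter {k m p : ℕ} {b : ℕ → ℕ} (α β : ℕ) (γ : ℕ → ℕ)
    (step : ∀ d E t s, s ∈ Icc 1 k → Real k d E t m p b → Real k (fun j => d j + if j = s then α else 0)
      (fun j => E j + γ j + if j = s then β else 0) (t + α) m p b)
    (c : ℕ → ℕ) (S : Finset ℕ) (hS : S ⊆ Icc 1 k) {d E : ℕ → ℕ} {t : ℕ} (h : Real k d E t m p b) :
    Real k (fun j => d j + if j ∈ S then α * c j else 0)
      (fun j => E j + γ j * ∑ s ∈ S, c s + if j ∈ S then β * c j else 0)
      (t + α * ∑ s ∈ S, c s) m p b := by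
  induction S using Finset.induction_on with
  | empty => exact h.congr (by simp) (by simp) (by simp)
  | insert s S hs ih =>
    have ih := ih ((subset_insert _ _).trans hS)
    have one : ∀ (n : ℕ) d E t, Real k d E t m p b →
        Real k (fun j => d j + if j = s then α * n else 0)
          (fun j => E j + γ j * n + if j = s then β * n else 0) (t + α * n) m p b := by
      intro n
      induction n with
      | zero => exact fun d E t h => h.congr (by simp) (by simp) (by simp)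
      | succ n ihn =>
        intro d E t h
        refine (step _ _ _ s (hS (mem_insert_self _ _)) (ihn d E t h)).congr ?_ ?_ (by ring) <;>
        · intro j
          split_ifs <;> ring
    refine (one (c s) _ _ _ ih).congr ?_ ?_ (by rw [sum_insert hs]; ring)
    · intro j
      by_cases hj : j = s
      · simp [hj, hs]
      · simp [hj]
    · intro j
      rw [sum_insert hs]
      by_cases hj : j = s
      · simp [hj, hs]; ring
      · simp [hj]; ring

theorem build (k q : ℕ) (hq : 1 ≤ q) (hk : 3 * q + 1 ≤ k) (N : ℕ) :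
    ∃ d E t m p b, Real k d E t m p b ∧ (∀ j ∈ Icc 1 k, 0 < d j) ∧
      (∀ j, 1 ≤ j → j + 1 ≤ k → d j < d (j + 1) ∧ E (j + 1) < E j) ∧
      d q = 2 * q ^ 2 + 3 + 2 * q ∧ N < d k := by
  have K2 : ∀ {m p : ℕ} {b : ℕ → ℕ} d E t s, s ∈ Icc 1 k → Real k d E t m p b →
      Real k (fun j => d j + if j = s then 1 else 0)
        (fun j => E j + (fun _ => 0) j + if j = s then 2 else 0) (t + 1) m p b :=
    fun d E t s hs h => h.k2 s hs
  set β := 2 * q ^ 2 + 3 with hβ
  have s1 := iter 1 2 (fun _ => 0) K2 (fun j => β + (q - j)) (Icc 1 q)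
    (Icc_subset_Icc_right (by omega)) (real0 k)
  obtain ⟨m, hm, s2⟩ := s1.reset
  set p := 1 + 1 * ∑ s ∈ Icc 1 q, (β + (q - s)) with hp
  have p1 : p ≤ 1 + q * (β + q) := by
    have := sum_le_card_nsmul (Icc 1 q) (fun s => β + (q - s)) (β + q) fun s _ => by omega
    simp only [Nat.card_Icc, smul_eq_mul, Nat.add_sub_cancel] at this
    omega
  have p2 : 3 ≤ p := by
    have := single_le_sum (f := fun s => β + (q - s)) (fun _ _ => Nat.zero_le _)
      (show q ∈ Icc 1 q from mem_Icc.2 ⟨hq, le_rfl⟩)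
    omega
  set L := N + 2 * p * k + 4 * (q + 1) + β + 2 * q + 3 with hL
  have s3 := iter m (2 * (p * m)) _ (fun d E t s hs h => h.blob s hs) (fun s => L + (k - s))
    (Icc (q + 1) k) (Icc_subset_Icc_left (by omega)) s2
  set D := ∑ s ∈ Icc (q + 1) k, (L + (k - s)) with hD
  have D1 : (2 * q + 1) * L ≤ D := by
    have := card_nsmul_le_sum (Icc (q + 1) k) (fun s => L + (k - s)) L fun s _ => by omega
    simp only [Nat.card_Icc, smul_eq_mul] at this
    exact (Nat.mul_le_mul_right _ (by omega)).trans this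
  have s4 := iter 1 2 (fun _ => 0) K2 (fun j => if j ≤ q then 2 * j else (m + 1) * j) (Icc 1 k)
    subset_rfl s3
  obtain ⟨d, E, t, b, s5, hA, hB⟩ : ∃ d E t b, Real k d E t m p b ∧
      (∀ j, 1 ≤ j → j ≤ q → d j = β + q + j ∧ E j = (β + (q - j)) * (2 + m * D) + 4 * j) ∧
      (∀ j, q < j → j ≤ k → d j = m * (L + (k - j)) + (m + 1) * j ∧
        E j = 2 * (p * m) * (L + (k - j)) + 2 * ((m + 1) * j)) := by
    refine ⟨_, _, _, _, s4, fun j h1 h2 => ?_, fun j h1 h2 => ?_⟩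
    · have a : j ∈ Icc 1 q := mem_Icc.2 ⟨h1, h2⟩
      have b : j ∉ Icc (q + 1) k := fun h => by have := (mem_Icc.1 h).1; omega
      have c : j ∈ Icc 1 k := mem_Icc.2 ⟨h1, by omega⟩
      simp only [a, b, c, h2, if_true, if_false]
      exact ⟨by omega, by ring⟩
    · have a : j ∉ Icc 1 q := fun h => by have := (mem_Icc.1 h).2; omega
      have b : j ∈ Icc (q + 1) k := mem_Icc.2 ⟨h1, h2⟩
      have c : j ∈ Icc 1 k := mem_Icc.2 ⟨by omega, h2⟩
      simp only [a, b, c, h1.not_ge, if_true, if_false]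
      exact ⟨by ring, by ring⟩
  have hL1 : N + β + 2 * q + 3 ≤ L := by omega
  have hL2 : 2 * p * k + 4 * (q + 1) < L := by omega
  clear_value D L p β
  clear s1 s2 s3 s4 K2 hp hL hD
  have mL : L ≤ m * L := Nat.le_mul_of_pos_left _ hm
  refine ⟨d, E, t, m, p, b, s5, fun j hj => ?_, fun j h1 h2 => ?_, ?_, ?_⟩
  · rw [mem_Icc] at hj
    by_cases h : j ≤ q
    · rw [(hA j hj.1 h).1]; omega
    · rw [(hB j (by omega) hj.2).1]; nlinarith [Nat.zero_le (m * (k - j))]
  · rcases lt_trichotomy j q with h | h | h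
    · obtain ⟨a1, a2⟩ := hA j h1 h.le
      obtain ⟨a3, a4⟩ := hA (j + 1) (by omega) h
      rw [a1, a2, a3, a4, show q - j = q - (j + 1) + 1 by omega]
      have : 3 ≤ D := le_trans (by nlinarith) D1
      exact ⟨by omega, by nlinarith⟩
    · subst h
      obtain ⟨a1, a2⟩ := hA j h1 le_rfl
      obtain ⟨a3, a4⟩ := hB (j + 1) (by omega) h2
      rw [a1, a2, a3, a4, Nat.sub_self]
      obtain ⟨r, hr⟩ : ∃ r, k - (j + 1) = r := ⟨_, rfl⟩
      rw [hr]
      refine ⟨by nlinarith [Nat.zero_le (m * r)], ?_⟩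
      have t1 : (2 * p + 1) * L ≤ β * D := by
        refine le_trans ?_ (Nat.mul_le_mul_left β D1)
        rw [← mul_assoc]
        exact Nat.mul_le_mul_right _ (by nlinarith)
      have t2 : 2 * p * r + 4 * (j + 1) < L := by
        have : 2 * p * r ≤ 2 * p * k := Nat.mul_le_mul_left _ (by omega)
        omega
      have t3 := Nat.mul_le_mul_left m t1
      have t4 := Nat.mul_lt_mul_of_pos_left t2 hm
      have t5 : j + 1 ≤ m * (j + 1) := Nat.le_mul_of_pos_left _ hm
      nlinarith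
    · obtain ⟨a1, a2⟩ := hB j h (by omega)
      obtain ⟨a3, a4⟩ := hB (j + 1) (by omega) h2
      rw [a1, a2, a3, a4, show k - j = k - (j + 1) + 1 by omega]
      have := Nat.mul_le_mul_right m p2
      exact ⟨by nlinarith, by nlinarith⟩
  · rw [(hA q hq le_rfl).1]; omega
  · rw [(hB k (by omega) le_rfl).1]
    nlinarith [Nat.zero_le (m * (k - k))]

end Pool.Agent.H.MP_1aba1b_co
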