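import Mathlib

set_option autoImplicit false

namespace Pool.Agent.H.MP_1aba1b_co

open Finset

lemma count_core {V : Type} [Fintype V] [DecidableEq V] (s b : V → V → ℕ)
    (hs : ∀ x y, s x y = s y x) (hb : ∀ x y, b x y = b y x)
    (h1 : ∀ x y, (if x = y then 1 else 0) + s x y + b x y ≤ 1) (H A : ℕ)
    (hH : ∀ x, ∑ y, s x y ≤ H) (hA : ∀ x, A ≤ ∑ y, b x y) (hV : 0 < Fintype.card V)
    (hXY : ∀ v, ∑ x, ∑ y, ((if v = x then 1 else 0) + s v x + b v x) *
        ((if v = y then 1 else 0) + s v y + b v y) * b x y ≤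
      2 * ∑ x, ∑ y, ((if v = x then 1 else 0) + s v x + b v x) *
        ((if v = y then 1 else 0) + s v y + b v y) * s x y) :
    A ≤ 2 * ((1 + H) * H) := by
  set T := ∑ v, ∑ x, ∑ y, b v x * b v y * s x y with hT
  have u1 : ∀ v, ∑ x, ∑ y, ((if v = x then 1 else 0) + s v x) * s x y ≤ (1 + H) * H := by
    intro v
    calc _ ≤ ∑ x, ((if v = x then 1 else 0) + s v x) * H := by
          refine sum_le_sum fun x _ => ?_
          rw [← mul_sum]
          exact Nat.mul_le_mul_left _ (hH x)
      _ ≤ _ := by
          rw [← sum_mul, sum_add_distrib]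
          refine Nat.mul_le_mul_right _ ?_
          have := hH v
          simp only [sum_ite_eq, mem_univ, if_true]
          omega
  have u2 : ∀ v, ∑ x, ∑ y, ((if v = y then 1 else 0) + s v y) * s x y ≤ (1 + H) * H := by
    intro v
    rw [sum_comm]
    simpa only [hs _ _] using u1 v
  have X : ∀ v, ∑ x, ∑ y, ((if v = x then 1 else 0) + s v x + b v x) *
      ((if v = y then 1 else 0) + s v y + b v y) * s x y ≤
      ∑ x, ∑ y, b v x * b v y * s x y + 2 * ((1 + H) * H) := by
    intro v
    refine le_trans ?_ (Nat.add_le_add_left ((add_le_add (u1 v) (u2 v)).trans_eq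
      (two_mul _).symm) _)
    simp only [← sum_add_distrib]
    refine sum_le_sum fun x _ => sum_le_sum fun y _ => ?_
    rw [← add_mul, ← add_mul]
    refine Nat.mul_le_mul_right _ ?_
    have a1 := h1 v x
    have a2 := h1 v y
    generalize (if v = x then 1 else 0) + s v x = p at a1 ⊢
    generalize (if v = y then 1 else 0) + s v y = q at a2 ⊢
    nlinarith
  have Y : ∀ v, 2 * A + (∑ x, ∑ y, b v x * s v y * b x y + ∑ x, ∑ y, s v x * b v y * b x y) ≤
      ∑ x, ∑ y, ((if v = x then 1 else 0) + s v x + b v x) *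
        ((if v = y then 1 else 0) + s v y + b v y) * b x y := by
    intro v
    have bb : ∀ y, b v y * b v y = b v y := fun y => by
      have : b v y ≤ 1 := le_trans (Nat.le_add_left _ _) (h1 v y)
      interval_cases b v y <;> rfl
    have e1 : ∑ x, ∑ y, (if v = x then 1 else 0) * b v y * b x y = ∑ y, b v y := by
      rw [sum_eq_single v (fun x _ hx => by simp [hx.symm]) (by simp)]
      simp [bb]
    have e2 : ∑ x, ∑ y, b v x * (if v = y then 1 else 0) * b x y = ∑ y, b v y := by
      refine sum_congr rfl fun x _ => ?_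
      rw [sum_eq_single v (fun y _ hy => by simp [hy.symm]) (by simp)]
      simp [hb x v, bb]
    have := hA v
    refine le_trans (Nat.add_le_add_right (show 2 * A ≤ ∑ x, ∑ y, (if v = x then 1 else 0) *
      b v y * b x y + ∑ x, ∑ y, b v x * (if v = y then 1 else 0) * b x y by
        rw [e1, e2]; omega) _) ?_
    simp only [← sum_add_distrib]
    refine sum_le_sum fun x _ => sum_le_sum fun y _ => ?_
    rw [← add_mul, ← add_mul, ← add_mul]
    refine Nat.mul_le_mul_right _ ?_
    generalize (if v = x then 1 else 0) = p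
    generalize (if v = y then 1 else 0) = q
    nlinarith [Nat.zero_le (p * q), Nat.zero_le (p * s v y), Nat.zero_le (s v x * q),
      Nat.zero_le (s v x * s v y), Nat.zero_le (b v x * b v y)]
  have T1 : ∑ v, ∑ x, ∑ y, b v x * s v y * b x y = T := by
    rw [hT, sum_comm]
    refine sum_congr rfl fun x _ => sum_congr rfl fun v _ => sum_congr rfl fun y _ => ?_
    rw [hb v x]; ring
  have T2 : ∑ v, ∑ x, ∑ y, s v x * b v y * b x y = T := by
    rw [← T1]
    refine sum_congr rfl fun v _ => ?_
    rw [sum_comm]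
    refine sum_congr rfl fun x _ => sum_congr rfl fun y _ => ?_
    rw [hb y x]; ring
  have S := sum_le_sum (s := univ) fun v _ => (Y v).trans ((hXY v).trans
    (Nat.mul_le_mul_left 2 (X v)))
  simp only [sum_add_distrib, mul_add, ← mul_sum, T1, T2, ← hT, sum_const, card_univ,
    smul_eq_mul] at S
  have : Fintype.card V * (2 * A) ≤ Fintype.card V * (2 * (2 * ((1 + H) * H))) := by
    nlinarith
  have := Nat.le_of_mul_le_mul_left this hV
  omega

lemma two_ncard {V : Type} [Fintype V] [DecidableEq V] (G : SimpleGraph V) (P : Sym2 V → Prop)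
    [DecidableRel G.Adj] [DecidablePred P] :
    2 * {e ∈ G.edgeSet | P e}.ncard = ∑ x, ∑ y, if G.Adj x y ∧ P s(x, y) then 1 else 0 := by
  let G' : SimpleGraph V :=
    { Adj := fun x y => G.Adj x y ∧ P s(x, y)
      symm := ⟨fun x y h => ⟨h.1.symm, Sym2.eq_swap ▸ h.2⟩⟩
      loopless := ⟨fun x h => G.irrefl h.1⟩ }
  haveI : DecidableRel G'.Adj := fun x y => inferInstanceAs (Decidable (G.Adj x y ∧ P s(x, y)))
  have e : {e ∈ G.edgeSet | P e} = G'.edgeSet := by
    ext e
    induction e using Sym2.ind with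
    | _ x y => simp [G']
  rw [e, ← SimpleGraph.coe_edgeFinset, Set.ncard_coe_finset,
    ← SimpleGraph.sum_degrees_eq_twice_card_edges]
  refine sum_congr rfl fun x _ => ?_
  rw [← SimpleGraph.card_neighborFinset_eq_degree, SimpleGraph.neighborFinset_eq_filter,
    card_filter]
  exact sum_congr rfl fun y _ => by simp [G']

end Pool.Agent.H.MP_1aba1b_co
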